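import Pool.Agent.P8H57.An.NECC

set_option autoImplicit false
set_option linter.unusedSectionVars false

namespace Pool.Agent.P8H57.An

open Module Polynomial Pool.Agent.P8H59.An

variable {n : ℕ} {G : SimpleGraph (Fin n)} {N : Type} [LieRing N] [LieAlgebra ℚ N]
  [FiniteDimensional ℚ N]

lemma le_trans' {u v w : Fin n} (h1 : Le G u v) (h2 : Le G v w) : Le G u w := by
  intro x hx
  rcases h1 x hx with h | h
  · rcases h2 u (h ▸ hx.symm) with h3 | h3
    · right; rw [← h3]; exact hx
    · rcases h1 w h3.symm with h4 | h4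
      · left; rw [h, h4]
      · right; rw [h]; exact h4.symm
  · exact h2 x h

lemma le_refl' (v : Fin n) : Le G v v := fun _ h => Or.inr h

/-- the elements supported below `v` -/
def U (b : Module.Basis (Fin n ⊕ G.edgeSet) ℚ N) (v : Fin n) : Submodule ℚ N where
  carrier := {x | ∀ y, co b y x ≠ 0 → Le G y v}
  zero_mem' := by
    intro y hy
    rw [map_zero] at hy
    exact absurd rfl hy
  add_mem' := by
    intro x x' hx hx' y hy
    by_cases h : co b y x = 0
    · by_cases h' : co b y x' = 0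
      · rw [map_add, h, h', add_zero] at hy
        exact absurd rfl hy
      · exact hx' y h'
    · exact hx y h
  smul_mem' := by
    intro c x hx y hy
    rw [map_smul] at hy
    exact hx y (right_ne_zero_of_mul hy)

variable {b : Module.Basis (Fin n ⊕ G.edgeSet) ℚ N}

lemma b_mem_U {u v : Fin n} (h : Le G u v) : b (Sum.inl u) ∈ U b v := by
  intro y hy
  rw [co_inl] at hy
  by_cases e : y = u
  · rw [e]; exact h
  · rw [if_neg e] at hy; exact absurd rfl hy

namespace Std

variable (hb : Std b)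
include hb

lemma edge_form (e : G.edgeSet) : ∃ (p q : Fin n), ⁅b (Sum.inl p), b (Sum.inl q)⁆ = b (Sum.inr e) := by
  obtain ⟨e, he⟩ := e
  induction e with
  | _ i j =>
    have h := G.mem_edgeSet.mp he
    rcases lt_or_gt_of_ne h.ne with h1 | h1
    · exact ⟨i, j, hb.adj i j h h1⟩
    · refine ⟨j, i, ?_⟩
      rw [hb.adj j i h.symm h1]
      congr 2
      exact Subtype.ext Sym2.eq_swap

lemma co_hom_inr (g : End ℚ N) (hg : ∀ x y, g ⁅x, y⁆ = ⁅g x, g y⁆) (i : Fin n) (e : G.edgeSet) :
    co b i (g (b (Sum.inr e))) = 0 := by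
  obtain ⟨p, q, h⟩ := hb.edge_form e
  rw [← h, hg, hb.co_lie]

lemma expand (g : End ℚ N) (hg : ∀ x y, g ⁅x, y⁆ = ⁅g x, g y⁆) (j : Fin n) (x : N) :
    co b j (g x) = ∑ y, co b y x * co b j (g (b (Sum.inl y))) := by
  have h1 : (co b j).comp g = ∑ y, (co b j (g (b (Sum.inl y)))) • co b y := by
    apply b.ext
    rintro (i | e)
    · simp only [LinearMap.comp_apply, LinearMap.sum_apply, LinearMap.smul_apply, smul_eq_mul, co_inl]
      simp
    · simp only [LinearMap.comp_apply, LinearMap.sum_apply, LinearMap.smul_apply, smul_eq_mul, co_inr,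
        hb.co_hom_inr g hg]
      simp
  have h2 := LinearMap.congr_fun h1 x
  rw [LinearMap.comp_apply] at h2
  rw [h2, LinearMap.sum_apply]
  exact Finset.sum_congr rfl fun y _ => by rw [LinearMap.smul_apply, smul_eq_mul, mul_comm]

theorem exists_perm (f : N ≃ₗ⁅ℚ⁆ N) :
    ∃ σ : Equiv.Perm (Fin n), ∀ v, co b (σ v) (f (b (Sum.inl v))) ≠ 0 := by
  classical
  have : Fintype G.edgeSet := Fintype.ofFinite _
  set F : End ℚ N := (f.toLinearEquiv : N →ₗ[ℚ] N) with hF
  have hg : ∀ x y, F ⁅x, y⁆ = ⁅F x, F y⁆ := fun x y => f.map_lie x y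
  set M := LinearMap.toMatrix b b F with hM
  have hdet : M.det ≠ 0 := by
    rw [hM, LinearMap.det_toMatrix]
    exact (LinearEquiv.isUnit_det' f.toLinearEquiv).ne_zero
  have h12 : M.toBlocks₁₂ = 0 := by
    ext i e
    rw [Matrix.toBlocks₁₂, Matrix.of_apply, hM, LinearMap.toMatrix_apply]
    exact hb.co_hom_inr F hg i e
  rw [← Matrix.fromBlocks_toBlocks M, h12, Matrix.det_fromBlocks_zero₁₂] at hdet
  have hA := left_ne_zero_of_mul hdet
  rw [Matrix.det_apply] at hA
  obtain ⟨σ, -, hσ⟩ := Finset.exists_ne_zero_of_sum_ne_zero hA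
  have hσ' : ∏ i, M.toBlocks₁₁ (σ i) i ≠ 0 := by
    intro h
    rw [h, smul_zero] at hσ
    exact hσ rfl
  refine ⟨σ, fun v => ?_⟩
  have h1 := (Finset.prod_ne_zero_iff.mp hσ') v (Finset.mem_univ v)
  rw [Matrix.toBlocks₁₁, Matrix.of_apply, hM, LinearMap.toMatrix_apply] at h1
  exact h1

theorem main (f : N ≃ₗ⁅ℚ⁆ N) (p : ℤ[X])
    (hp : p.map (Int.castRingHom ℚ) = LinearMap.charpoly f.toLinearEquiv.toLinearMap)
    (h0 : p.coeff 0 = 1 ∨ p.coeff 0 = -1)
    (hz : ∀ z : ℂ, (p.map (Int.castRingHom ℂ)).IsRoot z → ‖z‖ ≠ 1) : Cond G := by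
  classical
  obtain ⟨σ, hσ⟩ := hb.exists_perm f
  have hle : ∀ v, dg G (σ v) ≤ dg G v := by
    intro v
    refine (hb.le_rk (hσ v)).trans ?_
    rw [rk_map]
    exact hb.rk_b v
  have hdeg : ∀ v, dg G (σ v) = dg G v := by
    have h1 : ∑ v, dg G (σ v) = ∑ v, dg G v := Equiv.sum_comp σ (dg G)
    have h2 := (Finset.sum_eq_sum_iff_of_le (fun v _ => hle v)).mp h1
    exact fun v => h2 v (Finset.mem_univ v)
  have hfb : ∀ v, f (b (Sum.inl v)) ∈ U b (σ v) := by
    intro v y hy
    refine hb.supp_of_rk (hσ v) ?_ hy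
    rw [rk_map, hdeg]
    exact hb.rk_b v
  have hfU : ∀ v x, x ∈ U b v → f x ∈ U b (σ v) := by
    intro v x hx
    set a := co b (σ v) (f (b (Sum.inl v))) with ha
    obtain ⟨t, ht⟩ := Infinite.exists_notMem_finset
      ({-(co b v x), -(co b (σ v) (f x)) / a} : Finset ℚ)
    rw [Finset.mem_insert, Finset.mem_singleton, not_or] at ht
    obtain ⟨ht1, ht2⟩ := ht
    set x' := x + t • b (Sum.inl v) with hx'
    have hx'U : x' ∈ U b v := (U b v).add_mem hx ((U b v).smul_mem t (b_mem_U (le_refl' v)))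
    have e1 : co b v x' ≠ 0 := by
      rw [hx', map_add, map_smul, co_inl, if_pos rfl, smul_eq_mul, mul_one]
      intro h
      exact ht1 (by linarith)
    have e2 : co b (σ v) (f x') ≠ 0 := by
      have : f x' = f x + t • f (b (Sum.inl v)) := by
        rw [hx']
        exact (f.toLinearEquiv.map_add _ _).trans (congrArg _ (f.toLinearEquiv.map_smul _ _))
      rw [this, map_add, map_smul, smul_eq_mul]
      intro h
      apply ht2
      have ha0 : a ≠ 0 := hσ v
      rw [eq_div_iff ha0]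
      linarith
    have h1 : f x' ∈ U b (σ v) := by
      intro y hy
      refine hb.supp_of_rk e2 ?_ hy
      rw [rk_map, hdeg]
      exact hb.rk_of_supp e1 hx'U
    have h2 : f x = f x' - t • f (b (Sum.inl v)) := by
      have : f x' = f x + t • f (b (Sum.inl v)) := by
        rw [hx']
        exact (f.toLinearEquiv.map_add _ _).trans (congrArg _ (f.toLinearEquiv.map_smul _ _))
      rw [this, add_sub_cancel_right]
    rw [h2]
    exact (U b (σ v)).sub_mem h1 ((U b (σ v)).smul_mem t (hfb v))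
  set F : End ℚ N := (f.toLinearEquiv : N →ₗ[ℚ] N) with hF
  have hUk : ∀ (j : ℕ) (v : Fin n) (x : N), x ∈ U b v → (F ^ j) x ∈ U b ((σ ^ j) v) := by
    intro j
    induction j with
    | zero => intro v x hx; simpa using hx
    | succ j ih =>
      intro v x hx
      rw [pow_succ', pow_succ', Module.End.mul_apply, Equiv.Perm.mul_apply]
      exact hfU _ _ (ih v x hx)
  have hhom : ∀ (j : ℕ) (x y : N), (F ^ j) ⁅x, y⁆ = ⁅(F ^ j) x, (F ^ j) y⁆ := by
    intro j
    induction j with
    | zero => intro x y; simp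
    | succ j ih =>
      intro x y
      rw [pow_succ', Module.End.mul_apply, Module.End.mul_apply, Module.End.mul_apply, ih]
      exact f.map_lie _ _
  set k := orderOf σ with hk
  have hkpos : 0 < k := orderOf_pos σ
  set g := F ^ k with hg
  have hgU : ∀ v x, x ∈ U b v → g x ∈ U b v := by
    intro v x hx
    have h1 := hUk k v x hx
    rw [hk, pow_orderOf_eq_one, Equiv.Perm.one_apply] at h1
    exact h1
  have hghom := hhom k
  -- the entries of `g`
  have hent : ∀ u y, co b u (g (b (Sum.inl y))) ≠ 0 → Le G u y := fun u y h =>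
    hgU y _ (b_mem_U (le_refl' y)) u h
  have hfinal : ∀ (S : Submodule ℚ N), (∀ x ∈ S, g x ∈ S) → ∀ (φ : N →ₗ[ℚ] ℚ) (c : ℚ),
      (∀ x ∈ S, φ (g x) = c * φ x) → ∀ x0 ∈ S, φ x0 ≠ 0 → False := by
    intro S hS φ c h x0 hx0 hφ
    obtain ⟨x, hx, hx2⟩ := exists_eigen g S hS φ c h x0 hx0 hφ
    exact no_eigen F p hp h0 hz k hkpos c x hx hx2
  intro v
  by_contra hcon
  push Not at hcon
  by_cases hex : ∃ w, w ≠ v ∧ Twin G v w
  · obtain ⟨w, hwv, hw⟩ := hex
    obtain ⟨hcl, hadj⟩ := hcon w hwv hw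
    have hex2 : ∀ x ∈ U b v, ∀ j, Twin G v j → co b j (g x)
        = co b v x * co b j (g (b (Sum.inl v))) + co b w x * co b j (g (b (Sum.inl w))) := by
      intro x hx j hj
      rw [hb.expand g hghom j x]
      apply Finset.sum_eq_add v w hwv.symm
      · rintro y - ⟨hyv, hyw⟩
        by_contra hne
        have h1 := hx y (left_ne_zero_of_mul hne)
        have h2 := hent j y (right_ne_zero_of_mul hne)
        rcases hcl y ⟨le_trans' hj.1 h2, h1⟩ with h3 | h3
        · exact hyv h3
        · exact hyw h3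
      · intro h; exact absurd (Finset.mem_univ _) h
      · intro h; exact absurd (Finset.mem_univ _) h
    set φ := ed b ⟨s(v, w), G.mem_edgeSet.mpr hadj⟩ with hφ
    set ε : ℚ := if v < w then 1 else -1 with hε
    have hε0 : ε ≠ 0 := by
      rw [hε]; split_ifs <;> norm_num
    have hφl : ∀ x y, φ ⁅x, y⁆ = ε * (co b v x * co b w y - co b w x * co b v y) :=
      fun x y => hb.ed_lie hadj x y
    let c : ℚ := co b v (g (b (Sum.inl v))) * co b w (g (b (Sum.inl w)))
      - co b v (g (b (Sum.inl w))) * co b w (g (b (Sum.inl v)))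
    let S : Submodule ℚ N := Submodule.span ℚ {z | ∃ x ∈ U b v, ∃ y ∈ U b v, z = ⁅x, y⁆}
    refine hfinal S ?_ φ c ?_ ⁅b (Sum.inl v), b (Sum.inl w)⁆ ?_ ?_
    · intro x hx
      have h1 : S ≤ S.comap g := by
        apply Submodule.span_le.mpr
        rintro _ ⟨x, hx, y, hy, rfl⟩
        change g ⁅x, y⁆ ∈ S
        rw [hghom]
        exact Submodule.subset_span ⟨g x, hgU v x hx, g y, hgU v y hy, rfl⟩
      exact h1 hx
    · intro x hx
      have h1 : S ≤ LinearMap.ker (φ.comp g - c • φ) := by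
        apply Submodule.span_le.mpr
        rintro _ ⟨x, hx, y, hy, rfl⟩
        change (φ.comp g - c • φ) ⁅x, y⁆ = 0
        rw [LinearMap.sub_apply, LinearMap.comp_apply, LinearMap.smul_apply, hghom, hφl, hφl,
          hex2 x hx v ⟨le_refl' v, le_refl' v⟩, hex2 y hy v ⟨le_refl' v, le_refl' v⟩,
          hex2 x hx w hw, hex2 y hy w hw, smul_eq_mul]
        simp only [c]
        ring
      have h2 := h1 hx
      rw [LinearMap.mem_ker, LinearMap.sub_apply, LinearMap.comp_apply, LinearMap.smul_apply,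
        smul_eq_mul] at h2
      exact sub_eq_zero.mp h2
    · exact Submodule.subset_span ⟨_, b_mem_U (le_refl' v), _, b_mem_U hw.2, rfl⟩
    · rw [hφl, co_inl, co_inl, co_inl, co_inl, if_pos rfl, if_pos rfl, if_neg hwv,
        if_neg hwv.symm]
      simpa using hε0
  · push Not at hex
    refine hfinal (U b v) (hgU v) (co b v) (co b v (g (b (Sum.inl v)))) ?_ (b (Sum.inl v))
      (b_mem_U (le_refl' v)) ?_
    · intro x hx
      rw [hb.expand g hghom v x, mul_comm]
      apply Finset.sum_eq_single v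
      · intro y _ hyv
        by_contra hne
        have h1 := hx y (left_ne_zero_of_mul hne)
        have h2 := hent v y (right_ne_zero_of_mul hne)
        exact hex y hyv ⟨h2, h1⟩
      · intro h; exact absurd (Finset.mem_univ _) h
    · rw [co_inl, if_pos rfl]; exact one_ne_zero

end Std

/-- the standard form of the Lie algebra of a graph is Anosov only if the graph satisfies `Cond` -/
theorem nec : S_NEC := by
  intro n G N _ _ _ b h1 h2 h3 ⟨f, p, hp, h0, hz⟩
  exact Std.main (b := b) ⟨h1, h2, h3⟩ f p hp h0 hz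

end Pool.Agent.P8H57.An
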