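import Mathlib

set_option autoImplicit false

namespace Pool.Agent.P8H57.An

open Polynomial Module

/-- an eigenvalue from an eigenvector of the transposed map on an invariant subspace -/
theorem exists_eigen {N : Type} [AddCommGroup N] [Module ℚ N] [FiniteDimensional ℚ N]
    (g : End ℚ N) (S : Submodule ℚ N) (hS : ∀ x ∈ S, g x ∈ S) (φ : N →ₗ[ℚ] ℚ) (c : ℚ)
    (h : ∀ x ∈ S, φ (g x) = c * φ x) (x0 : N) (hx0 : x0 ∈ S) (h0 : φ x0 ≠ 0) :
    ∃ x : N, x ≠ 0 ∧ g x = c • x := by
  by_contra hcon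
  push Not at hcon
  let h' : S →ₗ[ℚ] S := (g - c • (1 : End ℚ N)).restrict (p := S) (q := S) (fun x hx => by
    change g x - c • x ∈ S
    exact S.sub_mem (hS x hx) (S.smul_mem c hx))
  have hinj : Function.Injective h' := by
    rw [← LinearMap.ker_eq_bot, LinearMap.ker_eq_bot']
    intro y hy
    by_contra hy0
    have hy0' : (y : N) ≠ 0 := fun e => hy0 (Subtype.ext e)
    apply hcon y hy0'
    have h1 := congrArg (fun z : S => (z : N)) hy
    change g y - c • (y : N) = 0 at h1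
    exact sub_eq_zero.mp h1
  obtain ⟨y, hy⟩ := LinearMap.injective_iff_surjective.mp hinj ⟨x0, hx0⟩
  have h1 := congrArg (fun z : S => (z : N)) hy
  change g y - c • (y : N) = x0 at h1
  apply h0
  rw [← h1, map_sub, map_smul, h y y.2, smul_eq_mul, sub_self]

theorem no_eigen {N : Type} [AddCommGroup N] [Module ℚ N] [FiniteDimensional ℚ N]
    (F : End ℚ N) (p : ℤ[X]) (hp : p.map (Int.castRingHom ℚ) = F.charpoly)
    (h0 : p.coeff 0 = 1 ∨ p.coeff 0 = -1)
    (hz : ∀ z : ℂ, (p.map (Int.castRingHom ℂ)).IsRoot z → ‖z‖ ≠ 1) (k : ℕ) (hk : 0 < k) (c : ℚ)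
    (x : N) (hx : x ≠ 0) (h : (F ^ k) x = c • x) : False := by
  classical
  let b := Module.finBasis ℚ N
  set M := LinearMap.toMatrix b b F with hM
  set A := M.map (algebraMap ℚ ℂ) with hA
  have hcA : A.charpoly = p.map (Int.castRingHom ℂ) := by
    rw [hA, Matrix.charpoly_map, hM, LinearMap.charpoly_toMatrix, ← hp, Polynomial.map_map]
    congr 1
  have hroot : (F ^ k).charpoly.IsRoot c := by
    rw [← Module.End.hasEigenvalue_iff_isRoot_charpoly]
    apply Module.End.hasEigenvalue_of_hasEigenvector (x := x)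
    exact ⟨Module.End.mem_eigenspace_iff.mpr h, hx⟩
  have hroot2 : ((c : ℚ) : ℂ) ∈ spectrum ℂ (A ^ k) := by
    rw [Matrix.mem_spectrum_iff_isRoot_charpoly]
    have h1 : A ^ k = (LinearMap.toMatrix b b (F ^ k)).map (algebraMap ℚ ℂ) := by
      rw [hA, ← Matrix.map_pow, hM, LinearMap.toMatrix_pow]
    rw [h1, Matrix.charpoly_map, LinearMap.charpoly_toMatrix]
    exact hroot.map
  rw [spectrum.map_pow_of_pos A hk] at hroot2
  obtain ⟨ζ, hζ, hζc⟩ := hroot2
  rw [Matrix.mem_spectrum_iff_isRoot_charpoly, hcA] at hζ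
  have hmon : p.Monic := by
    apply Polynomial.monic_of_injective (f := Int.castRingHom ℚ) (RingHom.injective_int _)
    rw [hp]
    exact LinearMap.charpoly_monic F
  have hev : aeval ζ p = 0 := by
    rw [Polynomial.aeval_def, Polynomial.eval₂_eq_eval_map]
    have : algebraMap ℤ ℂ = Int.castRingHom ℂ := RingHom.ext_int _ _
    rw [this]
    exact hζ
  have hint : IsIntegral ℤ ζ := ⟨p, hmon, by rw [← Polynomial.aeval_def]; exact hev⟩
  obtain ⟨η, hη, hζη⟩ : ∃ η : ℂ, IsIntegral ℤ η ∧ ζ * η = 1 := by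
    have hd := Polynomial.divX_mul_X_add p
    have h1 : aeval ζ p.divX * ζ + (p.coeff 0 : ℂ) = 0 := by
      have h2 := congrArg (aeval ζ) hd
      rw [hev, map_add, map_mul, aeval_X, aeval_C] at h2
      exact h2
    have h3 : IsIntegral ℤ (aeval ζ p.divX) := by
      have := (Algebra.isIntegral_def.mp (inferInstance : Algebra.IsIntegral ℤ ℤ))
      rw [Polynomial.aeval_eq_sum_range]
      refine IsIntegral.sum _ fun i _ => ?_
      exact (hint.pow i).smul _
    rcases h0 with h0 | h0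
    · refine ⟨-aeval ζ p.divX, h3.neg, ?_⟩
      rw [h0] at h1
      push_cast at h1
      linear_combination -h1
    · refine ⟨aeval ζ p.divX, h3, ?_⟩
      rw [h0] at h1
      push_cast at h1
      linear_combination h1
  have hci : IsIntegral ℤ (c : ℂ) := by
    have : (ζ ^ k) = (c : ℂ) := hζc
    rw [← this]
    exact hint.pow k
  have hci' : IsIntegral ℤ ((c : ℂ)⁻¹) := by
    have h1 : (ζ ^ k) = (c : ℂ) := hζc
    have h2 : ((c : ℂ)⁻¹) = η ^ k := by
      rw [← h1]
      exact inv_eq_of_mul_eq_one_right (by rw [← mul_pow, hζη, one_pow])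
    rw [h2]
    exact hη.pow k
  have key : ∀ q : ℚ, IsIntegral ℤ (q : ℂ) → ∃ m : ℤ, (m : ℚ) = q := by
    intro q hq
    have : IsIntegral ℤ q := by
      have h1 : ((q : ℚ) : ℂ) = algebraMap ℚ ℂ q := rfl
      rw [h1] at hq
      exact (isIntegral_algebraMap_iff (algebraMap ℚ ℂ).injective).mp hq
    obtain ⟨m, hm⟩ := IsIntegrallyClosed.isIntegral_iff.mp this
    exact ⟨m, hm⟩
  obtain ⟨m, hm⟩ := key c hci
  obtain ⟨m', hm'⟩ := key c⁻¹ (by push_cast; exact hci')
  have hc0 : c ≠ 0 := by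
    rintro rfl
    have h1 : (ζ ^ k) = (((0 : ℚ) : ℚ) : ℂ) := hζc
    have h2 : ζ ≠ 0 := left_ne_zero_of_mul_eq_one hζη
    rw [Rat.cast_zero] at h1
    exact pow_ne_zero k h2 h1
  have hmm : m * m' = 1 := by
    have : (m : ℚ) * m' = 1 := by rw [hm, hm', mul_inv_cancel₀ hc0]
    exact_mod_cast this
  have hnorm : ‖(c : ℂ)‖ = 1 := by
    rw [← hm]
    rcases Int.eq_one_or_neg_one_of_mul_eq_one hmm with h | h <;> rw [h] <;> simp
  have h1 : (ζ ^ k) = (c : ℂ) := hζc
  rw [← h1, norm_pow] at hnorm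
  exact hz ζ hζ ((pow_eq_one_iff_of_nonneg (norm_nonneg _) hk.ne').mp hnorm)

end Pool.Agent.P8H57.An
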