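import Mathlib
import Pool.Agent.P8H59.An.Stm

set_option autoImplicit false

namespace Pool.Agent.P8H57.An

open Module Pool.Agent.P8H59.An

variable {n : ℕ} {G : SimpleGraph (Fin n)} {N : Type} [LieRing N] [LieAlgebra ℚ N]

/-- the basis `b` is the standard basis of the Lie algebra of the graph -/
structure Std (b : Module.Basis (Fin n ⊕ G.edgeSet) ℚ N) : Prop where
  adj : ∀ (i j : Fin n) (h : G.Adj i j), i < j →
    ⁅b (Sum.inl i), b (Sum.inl j)⁆ = b (Sum.inr ⟨s(i, j), G.mem_edgeSet.mpr h⟩)
  nadj : ∀ i j : Fin n, ¬ G.Adj i j → ⁅b (Sum.inl i), b (Sum.inl j)⁆ = 0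
  cen : ∀ (e : G.edgeSet) (k : Fin n ⊕ G.edgeSet), ⁅b (Sum.inr e), b k⁆ = 0

/-- coordinates of vertices -/
noncomputable def co (b : Module.Basis (Fin n ⊕ G.edgeSet) ℚ N) (i : Fin n) : N →ₗ[ℚ] ℚ :=
  b.coord (Sum.inl i)

/-- coordinates of edges -/
noncomputable def ed (b : Module.Basis (Fin n ⊕ G.edgeSet) ℚ N) (e : G.edgeSet) : N →ₗ[ℚ] ℚ :=
  b.coord (Sum.inr e)

variable {b : Module.Basis (Fin n ⊕ G.edgeSet) ℚ N}

lemma co_inl (i j : Fin n) : co b i (b (Sum.inl j)) = if i = j then 1 else 0 := by
  classical
  unfold co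
  rw [Basis.coord_apply, Basis.repr_self, Finsupp.single_apply]
  simp only [Sum.inl.injEq]
  by_cases h : j = i
  · rw [if_pos h, if_pos h.symm]
  · rw [if_neg h, if_neg (fun e => h e.symm)]

lemma co_inr (i : Fin n) (e : G.edgeSet) : co b i (b (Sum.inr e)) = 0 := by
  classical
  unfold co
  rw [Basis.coord_apply, Basis.repr_self, Finsupp.single_apply]
  simp

lemma ed_inl (e : G.edgeSet) (i : Fin n) : ed b e (b (Sum.inl i)) = 0 := by
  classical
  unfold ed
  rw [Basis.coord_apply, Basis.repr_self, Finsupp.single_apply]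
  simp

lemma ed_inr [DecidableEq G.edgeSet] (e e' : G.edgeSet) :
    ed b e (b (Sum.inr e')) = if e = e' then 1 else 0 := by
  classical
  unfold ed
  rw [Basis.coord_apply, Basis.repr_self, Finsupp.single_apply]
  simp only [Sum.inr.injEq]
  by_cases h : e' = e
  · rw [if_pos h, if_pos h.symm]
  · rw [if_neg h, if_neg (fun e => h e.symm)]

/-- bilinear extension -/
lemma bil_ext (b : Module.Basis (Fin n ⊕ G.edgeSet) ℚ N) (φ a a' : N →ₗ[ℚ] ℚ) (t : ℚ)
    (h : ∀ k l, φ ⁅b k, b l⁆ = t * (a (b k) * a' (b l) - a' (b k) * a (b l))) (x y : N) :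
    φ ⁅x, y⁆ = t * (a x * a' y - a' x * a y) := by
  let L : N →ₗ[ℚ] N →ₗ[ℚ] ℚ := LinearMap.mk₂ ℚ
    (fun x y => φ ⁅x, y⁆ - t * (a x * a' y - a' x * a y))
    (fun x x' y => by simp only [add_lie, map_add]; ring)
    (fun c x y => by simp only [smul_lie, map_smul, smul_eq_mul]; ring)
    (fun x y y' => by simp only [lie_add, map_add]; ring)
    (fun c x y => by simp only [lie_smul, map_smul, smul_eq_mul]; ring)
  have hL : L = 0 := b.ext fun k => b.ext fun l => by
    change φ ⁅b k, b l⁆ - t * (a (b k) * a' (b l) - a' (b k) * a (b l)) = 0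
    rw [h, sub_self]
  have h1 : L x y = 0 := by rw [hL]; rfl
  change φ ⁅x, y⁆ - t * (a x * a' y - a' x * a y) = 0 at h1
  exact sub_eq_zero.mp h1

namespace Std

variable (hb : Std b)
include hb

lemma cen' (k : Fin n ⊕ G.edgeSet) (e : G.edgeSet) : ⁅b k, b (Sum.inr e)⁆ = 0 := by
  rw [← lie_skew, hb.cen, neg_zero]

lemma adj' (i j : Fin n) (h : G.Adj i j) (hij : j < i) :
    ⁅b (Sum.inl i), b (Sum.inl j)⁆ = -b (Sum.inr ⟨s(i, j), G.mem_edgeSet.mpr h⟩) := by
  rw [← lie_skew, hb.adj j i h.symm hij]
  congr 3
  exact Subtype.ext Sym2.eq_swap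

lemma co_lie (i : Fin n) (x y : N) : co b i ⁅x, y⁆ = 0 := by
  have := bil_ext b (co b i) 0 0 0 (fun k l => by
    rw [zero_mul]
    rcases k with p | e
    · rcases l with q | e
      · by_cases h : G.Adj p q
        · rcases lt_trichotomy p q with h1 | h1 | h1
          · rw [hb.adj p q h h1, co_inr]
          · exact absurd h1 h.ne
          · rw [hb.adj' p q h h1, map_neg, co_inr, neg_zero]
        · rw [hb.nadj p q h, map_zero]
      · rw [hb.cen', map_zero]
    · rw [hb.cen, map_zero]) x y
  rw [this, zero_mul]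

/-- the coordinate of a bracket at an edge -/
lemma ed_lie {i j : Fin n} (h : G.Adj i j) (x y : N) :
    ed b ⟨s(i, j), G.mem_edgeSet.mpr h⟩ ⁅x, y⁆
      = (if i < j then 1 else -1) * (co b i x * co b j y - co b j x * co b i y) := by
  classical
  apply bil_ext b
  intro k l
  rcases k with p | e
  · rcases l with q | e
    · simp only [co_inl]
      by_cases hpq : G.Adj p q
      · have hpq' := hpq.ne
        have hij' := h.ne
        have key : (ed b ⟨s(i, j), G.mem_edgeSet.mpr h⟩) (b (Sum.inr ⟨s(p, q), G.mem_edgeSet.mpr hpq⟩))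
            = if (i = p ∧ j = q) ∨ (i = q ∧ j = p) then 1 else 0 := by
          rw [ed_inr]
          congr 1
          rw [Subtype.mk.injEq, Sym2.eq_iff]
        rcases lt_trichotomy p q with h1 | h1 | h1
        · rw [hb.adj p q hpq h1, key]
          by_cases e1 : i = p
          · by_cases e2 : j = q
            · subst e1; subst e2
              simp [h1, hpq', hpq'.symm]
            · subst e1
              simp only [e2, and_false, hpq', false_and, or_false, if_false]
              simp
          · by_cases e3 : i = q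
            · by_cases e4 : j = p
              · subst e3; subst e4
                simp [h1.not_gt, hpq', hpq'.symm]
              · subst e3
                simp [e4, hpq'.symm]
            · simp [e1, e3]
        · exact absurd h1 hpq'
        · rw [hb.adj' p q hpq h1, map_neg, key]
          by_cases e1 : i = p
          · by_cases e2 : j = q
            · subst e1; subst e2
              simp [h1.not_gt, hpq', hpq'.symm]
            · subst e1
              simp only [e2, and_false, hpq', false_and, or_false, if_false]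
              simp
          · by_cases e3 : i = q
            · by_cases e4 : j = p
              · subst e3; subst e4
                simp [h1, hpq', hpq'.symm]
              · subst e3
                simp [e4, hpq'.symm]
            · simp [e1, e3]
      · rw [hb.nadj p q hpq, map_zero]
        have e1 : ¬ (i = p ∧ j = q) := by rintro ⟨rfl, rfl⟩; exact hpq h
        have e2 : ¬ (i = q ∧ j = p) := by rintro ⟨rfl, rfl⟩; exact hpq h.symm
        by_cases a1 : i = p
        · have a2 : j ≠ q := fun e => e1 ⟨a1, e⟩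
          by_cases a3 : j = p
          · exact absurd (a1.trans a3.symm) h.ne
          · simp [a2, a3]
        · by_cases a3 : i = q
          · have a4 : j ≠ p := fun e => e2 ⟨a3, e⟩
            simp [a1, a4]
          · simp [a1, a3]
    · rw [hb.cen', map_zero, co_inr, co_inr]
      simp
  · rw [hb.cen, map_zero, co_inr, co_inr]
    simp

/-- an element is determined by its coordinates -/
lemma ext_co {x y : N} (h1 : ∀ i, co b i x = co b i y)
    (h2 : ∀ (i j : Fin n) (h : G.Adj i j), ed b ⟨s(i, j), G.mem_edgeSet.mpr h⟩ x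
      = ed b ⟨s(i, j), G.mem_edgeSet.mpr h⟩ y) : x = y := by
  apply b.ext_elem
  rintro (i | ⟨e, he⟩)
  · exact h1 i
  · induction e with
    | _ i j => exact h2 i j (G.mem_edgeSet.mp he)

end Std

end Pool.Agent.P8H57.An
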