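import Pool.Agent.P8H57.An.NECA
import Pool.Agent.P8H57.An.NECB

set_option autoImplicit false
set_option linter.unusedSectionVars false

namespace Pool.Agent.P8H57.An

open Module Pool.Agent.P8H59.An

variable {n : ℕ} {G : SimpleGraph (Fin n)} {N : Type} [LieRing N] [LieAlgebra ℚ N]
  [FiniteDimensional ℚ N]

/-- the rank of the adjoint map -/
noncomputable def rk (x : N) : ℕ := finrank ℚ (LinearMap.range (LieAlgebra.ad ℚ N x))

/-- the degree -/
noncomputable def dg (G : SimpleGraph (Fin n)) (w : Fin n) : ℕ := Nat.card {z : Fin n // G.Adj w z}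

/-- the coordinates at the edges of `w` -/
noncomputable def Phi (b : Module.Basis (Fin n ⊕ G.edgeSet) ℚ N) (w : Fin n) :
    N →ₗ[ℚ] ({z : Fin n // G.Adj w z} → ℚ) :=
  LinearMap.pi fun z => ed b ⟨s(w, z.1), G.mem_edgeSet.mpr z.2⟩

variable {b : Module.Basis (Fin n ⊕ G.edgeSet) ℚ N}

namespace Std

variable (hb : Std b)
include hb

lemma Phi_lie (w : Fin n) (x y : N) (z : {z : Fin n // G.Adj w z}) :
    Phi b w ⁅x, y⁆ z = (if w < z.1 then 1 else -1) * (co b w x * co b z.1 y - co b z.1 x * co b w y) :=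
  hb.ed_lie z.2 x y

lemma exists_co (g : Fin n → ℚ) : ∃ y : N, ∀ i, co b i y = g i := by
  classical
  have : Fintype G.edgeSet := Fintype.ofFinite _
  refine ⟨b.equivFun.symm (Sum.elim g fun _ => 0), fun i => ?_⟩
  change b.equivFun (b.equivFun.symm (Sum.elim g fun _ => 0)) (Sum.inl i) = g i
  rw [LinearEquiv.apply_symm_apply]
  rfl

lemma surj {w : Fin n} {x : N} (hx : co b w x ≠ 0) :
    Function.Surjective ((Phi b w).comp (LieAlgebra.ad ℚ N x)) := by
  classical
  intro v
  obtain ⟨y, hy⟩ := hb.exists_co (fun i => if h : G.Adj w i then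
    (if w < i then 1 else -1) * v ⟨i, h⟩ / co b w x else 0)
  refine ⟨y, ?_⟩
  funext z
  change Phi b w ⁅x, y⁆ z = v z
  rw [hb.Phi_lie, hy, hy, dif_pos z.2, dif_neg (G.loopless.irrefl w)]
  by_cases h : w < z.1
  · rw [if_pos h]; field_simp; simp
  · rw [if_neg h]; field_simp; simp

lemma finrank_target (w : Fin n) : finrank ℚ ({z : Fin n // G.Adj w z} → ℚ) = dg G w := by
  classical
  rw [Module.finrank_pi]
  unfold dg
  rw [Nat.card_eq_fintype_card]

lemma le_rk {w : Fin n} {x : N} (hx : co b w x ≠ 0) : dg G w ≤ rk x := by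
  rw [← hb.finrank_target w]
  have h1 : LinearMap.range ((Phi b w).comp (LieAlgebra.ad ℚ N x)) = ⊤ :=
    LinearMap.range_eq_top.mpr (hb.surj hx)
  rw [← finrank_top ℚ ({z : Fin n // G.Adj w z} → ℚ), ← h1, LinearMap.range_comp]
  exact Submodule.finrank_map_le _ _

lemma supp_of_rk {w : Fin n} {x : N} (hx : co b w x ≠ 0) (hr : rk x ≤ dg G w) {y : Fin n}
    (hy : co b y x ≠ 0) : Le G y w := by
  have hinj : Function.Injective ((Phi b w).comp (LinearMap.range (LieAlgebra.ad ℚ N x)).subtype) := by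
    have hd : finrank ℚ (LinearMap.range (LieAlgebra.ad ℚ N x))
        = finrank ℚ ({z : Fin n // G.Adj w z} → ℚ) := by
      rw [hb.finrank_target w]
      exact le_antisymm hr (hb.le_rk hx)
    rw [LinearMap.injective_iff_surjective_of_finrank_eq_finrank hd]
    intro v
    obtain ⟨y, hy⟩ := hb.surj hx v
    exact ⟨⟨LieAlgebra.ad ℚ N x y, LinearMap.mem_range_self _ _⟩, hy⟩
  intro u hyu
  by_contra hcon
  push Not at hcon
  obtain ⟨huw, hwu⟩ := hcon
  have hzero : ⁅x, b (Sum.inl u)⁆ = 0 := by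
    have h1 : (⟨⁅x, b (Sum.inl u)⁆, ⟨b (Sum.inl u), rfl⟩⟩ : LinearMap.range (LieAlgebra.ad ℚ N x)) = 0 := by
      apply hinj
      rw [map_zero]
      funext z
      change Phi b w ⁅x, b (Sum.inl u)⁆ z = 0
      have hzu : z.1 ≠ u := fun e => hwu (e ▸ z.2)
      have hwu' : w ≠ u := fun e => huw e.symm
      rw [hb.Phi_lie, co_inl, co_inl]
      simp [hzu, hwu']
    exact congrArg Subtype.val h1
  have h2 := hb.ed_lie hyu x (b (Sum.inl u))
  rw [hzero, map_zero, co_inl, co_inl, if_pos rfl, if_neg hyu.ne, mul_zero, sub_zero, mul_one] at h2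
  split_ifs at h2
  · exact hy (by linarith)
  · exact hy (by linarith)

lemma rk_of_supp {w : Fin n} {x : N} (hx : co b w x ≠ 0) (hs : ∀ y, co b y x ≠ 0 → Le G y w) :
    rk x ≤ dg G w := by
  rw [← hb.finrank_target w]
  have hinj : Function.Injective ((Phi b w).comp (LinearMap.range (LieAlgebra.ad ℚ N x)).subtype) := by
    rw [← LinearMap.ker_eq_bot, LinearMap.ker_eq_bot']
    rintro ⟨v, y0, rfl⟩ hv
    apply Subtype.ext
    change ⁅x, y0⁆ = 0
    change Phi b w ⁅x, y0⁆ = 0 at hv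
    set y := y0 - (co b w y0 / co b w x) • x with hy
    have e1 : ⁅x, y0⁆ = ⁅x, y⁆ := by
      rw [hy, lie_sub, lie_smul, lie_self, smul_zero, sub_zero]
    have e2 : co b w y = 0 := by
      rw [hy, map_sub, map_smul, smul_eq_mul, div_mul_cancel₀ _ hx, sub_self]
    rw [e1] at hv ⊢
    have e3 : ∀ z, G.Adj w z → co b z y = 0 := by
      intro z hz
      have h1 := congrFun hv ⟨z, hz⟩
      rw [hb.Phi_lie, e2, mul_zero, sub_zero] at h1
      change _ = (0 : ℚ) at h1
      have h2 : co b w x * co b z y = 0 := by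
        split_ifs at h1
        · linarith
        · linarith
      exact (mul_eq_zero.mp h2).resolve_left hx
    have e4 : ∀ p q, G.Adj p q → co b p x * co b q y = 0 := by
      intro p q hpq
      by_cases hp : co b p x = 0
      · rw [hp, zero_mul]
      · rcases hs p hp q hpq with h | h
        · rw [h, e2, mul_zero]
        · rw [e3 q h, mul_zero]
    apply hb.ext_co
    · intro i
      rw [hb.co_lie, map_zero]
    · intro i j h
      rw [hb.ed_lie h, e4 i j h, e4 j i h.symm, map_zero]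
      simp
  exact LinearMap.finrank_le_finrank_of_injective hinj

lemma rk_b (v : Fin n) : rk (b (Sum.inl v)) ≤ dg G v := by
  apply hb.rk_of_supp
  · rw [co_inl, if_pos rfl]; exact one_ne_zero
  · intro y hy
    rw [co_inl] at hy
    have : y = v := by
      by_contra h
      rw [if_neg h] at hy
      exact hy rfl
    rw [this]
    exact fun _ h => Or.inr h

end Std

lemma rk_map (f : N ≃ₗ⁅ℚ⁆ N) (x : N) : rk (f x) = rk x := by
  unfold rk
  have h1 : LinearMap.range (LieAlgebra.ad ℚ N (f x))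
      = Submodule.map (f.toLinearEquiv : N →ₗ[ℚ] N) (LinearMap.range (LieAlgebra.ad ℚ N x)) := by
    ext y
    constructor
    · rintro ⟨z, rfl⟩
      refine ⟨⁅x, f.symm z⁆, ⟨f.symm z, rfl⟩, ?_⟩
      change f ⁅x, f.symm z⁆ = ⁅f x, z⁆
      rw [f.map_lie, LieEquiv.apply_symm_apply]
    · rintro ⟨_, ⟨z, rfl⟩, rfl⟩
      refine ⟨f z, ?_⟩
      change ⁅f x, f z⁆ = f ⁅x, z⁆
      rw [f.map_lie]
  rw [h1]
  exact LinearEquiv.finrank_map_eq f.toLinearEquiv _

end Pool.Agent.P8H57.An
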